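import Pool.Agent.W78.GR.Basic
import Pool.Agent.H304R2.Lam

/-! Project GR (helper78), task GR-1: the unit and the sign -1. -/

set_option autoImplicit false

namespace Pool.Agent.W376.GR

open Finset Pool.Agent.H376R2.MR Pool.Agent.W78.GR

variable {t c : ℤ}

theorem unit (hd : 4 * c < t ^ 2) (hns : ¬ IsSquare (t ^ 2 - 4 * c)) : S_UNIT t c := by
  have hd0 : (0 : ℤ) < t ^ 2 - 4 * c := by linarith
  obtain ⟨x₀, y₀, hxy₀, hy₀⟩ := Pell.exists_of_not_isSquare hd0 hns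
  obtain ⟨x, y, hxy, hx, hy⟩ : ∃ x y : ℤ, x ^ 2 - (t ^ 2 - 4 * c) * y ^ 2 = 1 ∧ 0 < x ∧ 0 < y := by
    refine ⟨|x₀|, |y₀|, by rw [sq_abs, sq_abs]; exact hxy₀, ?_, abs_pos.mpr hy₀⟩
    rw [abs_pos]
    rintro rfl
    have : 0 < y₀ ^ 2 := by positivity
    nlinarith
  have hR : (0 : ℝ) < (t : ℝ) ^ 2 - 4 * c := by exact_mod_cast hd0
  set r := Real.sqrt ((t : ℝ) ^ 2 - 4 * c) with hr
  have hr0 : 0 < r := Real.sqrt_pos.2 hR
  have hrr : r * r = (t : ℝ) ^ 2 - 4 * c := Real.mul_self_sqrt hR.le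
  have hxyR : (x : ℝ) ^ 2 - ((t : ℝ) ^ 2 - 4 * c) * (y : ℝ) ^ 2 = 1 := by exact_mod_cast hxy
  have hxR : (1 : ℝ) ≤ x := by exact_mod_cast hx
  have hyR : (1 : ℝ) ≤ y := by exact_mod_cast hy
  set u : Qd t c := ⟨x - t * y, 2 * y⟩ with hu
  have h1 : u * star u = 1 := by
    ext
    · simp [hu, QuadraticAlgebra.re_one]
      linear_combination hxy
    · simp [hu, QuadraticAlgebra.im_one]
      ring
  have h2 : star u * u = 1 := by rw [mul_comm]; exact h1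
  set v : (Qd t c)ˣ := ⟨u, star u, h1, h2⟩ with hv
  have e1 : s1 u = x + y * r := by
    unfold s1; simp only [hu]; push_cast; ring
  have e2 : s2 u = x - y * r := by
    unfold s2; simp only [hu]; push_cast; ring
  have e3 : s1 u * s2 u = 1 := by
    rw [e1, e2]
    have : (x + y * r) * (x - y * r) = (x : ℝ) ^ 2 - (r * r) * (y : ℝ) ^ 2 := by ring
    rw [this, hrr]; exact hxyR
  have hs1 : 1 < s1 u := by rw [e1]; nlinarith
  have hs1p : 0 < s1 u := by linarith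
  have hs2p : 0 < s2 u := by
    by_contra h
    have : s1 u * s2 u ≤ 0 := mul_nonpos_of_nonneg_of_nonpos hs1p.le (not_lt.mp h)
    linarith
  have htp : tp u := ⟨hs1p, hs2p⟩
  obtain ⟨n, hn⟩ := pow_unbounded_of_one_lt ((t : ℝ) ^ 2 - 4 * c + 1) hs1
  have hpow : ∀ m : ℕ, s1 (u ^ m) = s1 u ^ m ∧ s2 (u ^ m) = s2 u ^ m := by
    intro m
    induction m with
    | zero => simp [s1_one, s2_one]
    | succ m ih =>
      rw [pow_succ, s1_mul hd, s2_mul hd, ih.1, ih.2, pow_succ, pow_succ]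
      exact ⟨rfl, rfl⟩
  refine ⟨v ^ n, hd, hns, ?_, ?_⟩
  · rw [Units.val_pow_eq_pow_val]
    refine ⟨?_, ?_⟩
    · change 0 < s1 (u ^ n)
      rw [(hpow n).1]; positivity
    · change 0 < s2 (u ^ n)
      rw [(hpow n).2]; positivity
  · rw [Units.val_pow_eq_pow_val]
    change _ < s1 (u ^ n)
    rw [(hpow n).1]
    exact hn

theorem u0 (hd : 4 * c < t ^ 2) (hns : ¬ IsSquare (t ^ 2 - 4 * c)) : S_U0 t c := by
  obtain ⟨N0, hN0⟩ := Pool.Agent.H304R2.main_lam t c hns (-1) (Or.inr rfl) (1 / 2) (by norm_num)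
  have hR : (0 : ℝ) < (t : ℝ) ^ 2 - 4 * c := by exact_mod_cast (by linarith : (0 : ℤ) < t ^ 2 - 4 * c)
  set r := Real.sqrt ((t : ℝ) ^ 2 - 4 * c) with hr
  have hr0 : 0 ≤ r := Real.sqrt_nonneg _
  obtain ⟨K, hK⟩ := exists_nat_ge (|(t : ℝ)| + r)
  set N := max N0 ((K + 1) ^ 2) with hN
  have h := hN0 N (le_max_left _ _)
  have hKN : ((K : ℝ) + 1) ≤ (N : ℝ) ^ ((1 : ℝ) - 1 / 2) := by
    have h1 : (((K : ℝ) + 1) ^ 2) ≤ (N : ℝ) := by exact_mod_cast le_max_right N0 ((K + 1) ^ 2)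
    have h2 : ((1 : ℝ) - 1 / 2) = 1 / 2 := by norm_num
    rw [h2, ← Real.sqrt_eq_rpow]
    exact Real.le_sqrt_of_sq_le h1
  have hcard := le_trans hKN h
  have hcard' : K + 1 ≤ ((Finset.Icc 1 N).filter (fun n : ℕ =>
        (-1 : ℤ) ^ (ArithmeticFunction.cardFactors ((n : ℤ) ^ 2 + t * n + c).natAbs) = -1)).card := by
    exact_mod_cast hcard
  obtain ⟨n, hn, hnK⟩ : ∃ n ∈ (Finset.Icc 1 N).filter (fun n : ℕ =>
        (-1 : ℤ) ^ (ArithmeticFunction.cardFactors ((n : ℤ) ^ 2 + t * n + c).natAbs) = -1),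
        K < n := by
    by_contra hcon
    push Not at hcon
    have hsub : (Finset.Icc 1 N).filter (fun n : ℕ =>
        (-1 : ℤ) ^ (ArithmeticFunction.cardFactors ((n : ℤ) ^ 2 + t * n + c).natAbs) = -1) ⊆
        Finset.Icc 1 K := by
      intro n hn
      have h1 := hcon n hn
      have h2 := (Finset.mem_Icc.mp (Finset.mem_filter.mp hn).1).1
      exact Finset.mem_Icc.mpr ⟨h2, h1⟩
    have := Finset.card_le_card hsub
    rw [Nat.card_Icc] at this
    omega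
  rw [Finset.mem_filter] at hn
  have hnR : (K : ℝ) < n := by exact_mod_cast hnK
  have ht := neg_abs_le (t : ℝ)
  refine ⟨⟨(n : ℤ), 1⟩, ⟨?_, ?_⟩, ?_⟩
  · unfold s1
    simp only [Int.cast_natCast, Int.cast_one]
    have := abs_nonneg (t : ℝ)
    rw [← hr]
    linarith
  · unfold s2
    simp only [Int.cast_natCast, Int.cast_one]
    have := abs_nonneg (t : ℝ)
    rw [← hr]
    linarith
  · have e : nm (⟨(n : ℤ), 1⟩ : Qd t c) = ((n : ℤ) ^ 2 + t * n + c).natAbs := by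
      unfold nm
      congr 1
      ring
    unfold lam
    rw [e]
    exact hn.2

end Pool.Agent.W376.GR
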